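import Pool.Agent.Helper92.TN.GoalsH
import Pool.Agent.Helper90.T3.SUBF

/-!
# Project TN (MP_a41896_nt), IND, part H: packet TAUT (the translation automorphism)
-/

set_option autoImplicit false
set_option linter.unusedSectionVars false

namespace Pool.Agent.Helper9.TN.TAUT

open Polynomial WeierstrassCurve
open Pool.Agent.Helper29.BL Pool.Agent.Helper42.SG
open Pool.Agent.Helper60.T3 (WL IP)
open Pool.Agent.Helper92.TN (acl tp ACLA)

section field

variable {F Ω : Type} [Field F] [Field Ω] [Algebra F Ω]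

/-- Algebraic over a ring, algebraic over a larger ring. -/
theorem alg_mono' {A B Ω : Type} [CommRing A] [CommRing B] [Field Ω] [Algebra A Ω] [Algebra B Ω]
    (hA : Function.Injective (algebraMap A Ω)) (hinj : Function.Injective (algebraMap B Ω))
    (h : ∀ x : A, ∃ y : B, algebraMap B Ω y = algebraMap A Ω x) {z : Ω} (hz : IsAlgebraic A z) :
    IsAlgebraic B z := by
  choose f hf using h
  let g : A →+* B :=
    { toFun := f
      map_one' := hinj (by rw [hf, map_one, map_one])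
      map_mul' := fun a b => hinj (by rw [map_mul, hf, hf, hf, map_mul])
      map_zero' := hinj (by rw [hf, map_zero, map_zero])
      map_add' := fun a b => hinj (by rw [map_add, hf, hf, hf, map_add]) }
  have hg : (algebraMap B Ω).comp g = algebraMap A Ω := RingHom.ext hf
  have hgi : Function.Injective g := by
    intro a b hab
    apply hA
    rw [← hf a, ← hf b]
    exact congrArg _ hab
  obtain ⟨p, hp, hpz⟩ := hz
  refine ⟨p.map g, (Polynomial.map_ne_zero_iff hgi).mpr hp, ?_⟩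
  rw [aeval_def, eval₂_map, hg]
  exact hpz

/-- Algebraic over a field, algebraic over a larger field. -/
theorem alg_mono {A B Ω : Type} [Field A] [Field B] [Field Ω] [Algebra A Ω] [Algebra B Ω]
    (h : ∀ x : A, ∃ y : B, algebraMap B Ω y = algebraMap A Ω x) {z : Ω} (hz : IsAlgebraic A z) :
    IsAlgebraic B z :=
  alg_mono' (algebraMap A Ω).injective (algebraMap B Ω).injective h hz

/-- Change of the ground field. -/
theorem alg1 {L : IntermediateField F Ω} {S T : Set Ω} {z : Ω} (h : ∀ w ∈ S, w ∈ L ∨ w ∈ T)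
    (hz : IsAlgebraic (IntermediateField.adjoin F S) z) :
    IsAlgebraic (IntermediateField.adjoin L T) z := by
  have h2 : IntermediateField.adjoin F S ≤
      (IntermediateField.adjoin L T).restrictScalars F := by
    rw [IntermediateField.adjoin_le_iff]
    intro w hw
    rcases h w hw with hw | hw
    · exact (IntermediateField.adjoin L T).algebraMap_mem ⟨w, hw⟩
    · exact IntermediateField.subset_adjoin L T hw
  exact alg_mono (fun w => ⟨⟨w, h2 w.2⟩, rfl⟩) hz

/-- Change of the ground field. -/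
theorem alg2 {L : IntermediateField F Ω} {S T : Set Ω} {z : Ω}
    (hL : L ≤ IntermediateField.adjoin F S) (hT : ∀ w ∈ T, w ∈ IntermediateField.adjoin F S)
    (hz : IsAlgebraic (IntermediateField.adjoin L T) z) :
    IsAlgebraic (IntermediateField.adjoin F S) z := by
  have h3 : IntermediateField.adjoin L T ≤ IntermediateField.extendScalars hL := by
    rw [IntermediateField.adjoin_le_iff]
    exact hT
  exact alg_mono (fun w => ⟨⟨w, h3 w.2⟩, rfl⟩) hz

/-- A member of an independent family is not algebraic over the others. -/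
theorem alg3 {ι : Type} {L : IntermediateField F Ω} {X : ι → Ω} (hX : AlgebraicIndependent L X)
    {S : Set Ω} {i : ι} (h : ∀ w ∈ S, w ∈ L ∨ w ∈ X '' {j | j ≠ i}) :
    ¬ IsAlgebraic (IntermediateField.adjoin F S) (X i) := by
  intro h1
  have h2 := hX.transcendental_adjoin (s := {j | j ≠ i}) (i := i) (fun h => h rfl)
  exact h2 (IntermediateField.isAlgebraic_adjoin_iff.mp (alg1 h h1))

/-- Algebraic over `F(x)`, algebraic over `F[x]`. -/
theorem alg_range {x z : Ω} (hz : IsAlgebraic (IntermediateField.adjoin F {x}) z) :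
    IsAlgebraic (aeval x : F[X] →ₐ[F] Ω).range z := by
  have h1 := IntermediateField.isAlgebraic_adjoin_iff.mp hz
  refine alg_mono' Subtype.val_injective Subtype.val_injective (fun y => ?_) h1
  have h2 : (y : Ω) ∈ (aeval x : F[X] →ₐ[F] Ω).range := by
    rw [← Algebra.adjoin_singleton_eq_range_aeval]
    exact y.2
  exact ⟨⟨y, h2⟩, rfl⟩

variable [IsAlgClosed Ω]

/-- An automorphism which maps one generator to another one. -/
theorem iso {x x' : Ω} (hx : Transcendental F x) (hx' : Transcendental F x')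
    (ha : ∀ z : Ω, IsAlgebraic (aeval x : F[X] →ₐ[F] Ω).range z)
    (ha' : ∀ z : Ω, IsAlgebraic (aeval x' : F[X] →ₐ[F] Ω).range z) :
    ∃ τ : Ω ≃ₐ[F] Ω, τ x = x' := by
  have hi : ∀ {y : Ω}, Transcendental F y → Function.Injective (aeval y : F[X] →ₐ[F] Ω) :=
    fun hy => transcendental_iff_injective.mp hy
  have c1 : IsAlgClosure (aeval x : F[X] →ₐ[F] Ω).range Ω := ⟨inferInstance, ⟨ha⟩⟩
  have c2 : IsAlgClosure (aeval x' : F[X] →ₐ[F] Ω).range Ω := ⟨inferInstance, ⟨ha'⟩⟩
  let f : F[X] ≃ₐ[F] (aeval x : F[X] →ₐ[F] Ω).range := AlgEquiv.ofInjective _ (hi hx)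
  let f' : F[X] ≃ₐ[F] (aeval x' : F[X] →ₐ[F] Ω).range := AlgEquiv.ofInjective _ (hi hx')
  let g := f.symm.trans f'
  let τ : Ω ≃+* Ω := IsAlgClosure.equivOfEquiv Ω Ω g.toRingEquiv
  have hτ : ∀ s : (aeval x : F[X] →ₐ[F] Ω).range, τ (s : Ω) = (g s : Ω) :=
    fun s => IsAlgClosure.equivOfEquiv_algebraMap Ω Ω g.toRingEquiv s
  have hp : ∀ p : F[X], τ (aeval x p) = aeval x' p := by
    intro p
    have h1 := hτ (f p)
    have h2 : ((f p : (aeval x : F[X] →ₐ[F] Ω).range) : Ω) = aeval x p := rfl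
    have h3 : g (f p) = f' p := by
      show f' (f.symm (f p)) = f' p
      rw [f.symm_apply_apply]
    rw [h2, h3] at h1
    exact h1
  have hc : ∀ c : F, τ (algebraMap F Ω c) = algebraMap F Ω c := by
    intro c
    have := hp (C c)
    rwa [aeval_C, aeval_C] at this
  refine ⟨AlgEquiv.ofRingEquiv (f := τ) hc, ?_⟩
  have := hp X
  rw [aeval_X, aeval_X] at this
  exact this

omit [IsAlgClosed Ω] in
/-- The square root of a polynomial of odd degree is not in the field of rational functions. -/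
theorem notin {x ψ : Ω} (hx : Transcendental F x) (B : F[X]) (hB : Odd B.natDegree)
    (hψ : ψ ^ 2 = aeval x B) : ψ ∉ IntermediateField.adjoin F {x} := by
  intro h
  have hinj := transcendental_iff_injective.mp hx
  have hB0 : B ≠ 0 := by
    rintro rfl
    simp at hB
  obtain ⟨r, s, hrs⟩ := (IntermediateField.mem_adjoin_simple_iff F ψ).mp h
  by_cases hs : s = 0
  · rw [hs, map_zero, div_zero] at hrs
    rw [hrs, zero_pow (by norm_num)] at hψ
    exact hB0 (hinj (by rw [← hψ, map_zero]))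
  · have hs' : aeval x s ≠ 0 := fun h0 => hs (hinj (by rw [h0, map_zero]))
    rw [hrs, div_pow, div_eq_iff (pow_ne_zero 2 hs')] at hψ
    have h1 : r ^ 2 = B * s ^ 2 := hinj (by rw [map_pow, map_mul, map_pow, hψ])
    have h2 := congrArg Polynomial.natDegree h1
    rw [natDegree_pow, natDegree_mul hB0 (pow_ne_zero 2 hs), natDegree_pow] at h2
    obtain ⟨k, hk⟩ := hB
    omega

/-- An automorphism which changes the sign of a square root. -/
theorem sgn {x ψ : Ω} (hx : Transcendental F x)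
    (ha : ∀ z : Ω, IsAlgebraic (IntermediateField.adjoin F {x}) z) (B : F[X])
    (hB : Odd B.natDegree) (hψ : ψ ^ 2 = aeval x B) : ∃ σ : Ω ≃ₐ[F] Ω, σ x = x ∧ σ ψ = -ψ := by
  have hn := notin hx B hB hψ
  have c1 : IsAlgClosure (IntermediateField.adjoin F {x}) Ω := ⟨inferInstance, ⟨ha⟩⟩
  have hxm : x ∈ IntermediateField.adjoin F {x} := IntermediateField.mem_adjoin_simple_self F x
  have hb : aeval x B ∈ IntermediateField.adjoin F {x} := by
    have h1 := Polynomial.aeval_algHom_apply (IntermediateField.adjoin F {x}).val ⟨x, hxm⟩ B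
    have h2 : (IntermediateField.adjoin F {x}).val ⟨x, hxm⟩ = x := rfl
    rw [h2] at h1
    rw [h1]
    exact Subtype.property _
  have hint : IsIntegral (IntermediateField.adjoin F {x}) ψ := (ha ψ).isIntegral
  let p : (IntermediateField.adjoin F {x})[X] := X ^ 2 - C ⟨aeval x B, hb⟩
  have hp : p.Monic := monic_X_pow_sub_C _ (by norm_num)
  have hpd : p.natDegree = 2 := natDegree_X_pow_sub_C
  have hev : ∀ y : Ω, aeval y p = y ^ 2 - aeval x B := by
    intro y
    show aeval y (X ^ 2 - C (⟨aeval x B, hb⟩ : IntermediateField.adjoin F {x})) = _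
    rw [map_sub, map_pow, aeval_X, aeval_C]
    rfl
  have hdvd : minpoly (IntermediateField.adjoin F {x}) ψ ∣ p :=
    minpoly.dvd _ _ (by rw [hev, hψ, sub_self])
  have h1 : (minpoly (IntermediateField.adjoin F {x}) ψ).natDegree ≠ 1 := by
    intro h1
    obtain ⟨y, hy⟩ := minpoly.natDegree_eq_one_iff.mp h1
    exact hn (hy ▸ y.2)
  have h0 : 0 < (minpoly (IntermediateField.adjoin F {x}) ψ).natDegree :=
    minpoly.natDegree_pos hint
  have heq : p = minpoly (IntermediateField.adjoin F {x}) ψ :=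
    eq_of_monic_of_dvd_of_natDegree_le (minpoly.monic hint) hp hdvd (by omega)
  have hroot : aeval (-ψ) (minpoly (IntermediateField.adjoin F {x}) ψ) = 0 := by
    rw [← heq, hev, neg_sq, hψ, sub_self]
  obtain ⟨σ, hσ⟩ := minpoly.exists_algEquiv_of_root' (ha ψ) hroot
  refine ⟨σ.restrictScalars F, ?_, hσ⟩
  exact σ.commutes (⟨x, hxm⟩ : IntermediateField.adjoin F {x})

/-- Both together. -/
theorem pair {x x' ψ ψ' : Ω} (hx : Transcendental F x) (hx' : Transcendental F x')
    (ha : ∀ z : Ω, IsAlgebraic (IntermediateField.adjoin F {x}) z)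
    (ha' : ∀ z : Ω, IsAlgebraic (IntermediateField.adjoin F {x'}) z) (B : F[X])
    (hB : Odd B.natDegree) (hψ : ψ ^ 2 = aeval x B) (hψ' : ψ' ^ 2 = aeval x' B) :
    ∃ τ : Ω ≃ₐ[F] Ω, τ x = x' ∧ τ ψ = ψ' := by
  obtain ⟨τ, hτ⟩ := iso hx hx' (fun z => alg_range (ha z)) (fun z => alg_range (ha' z))
  have h1 : τ ψ ^ 2 = ψ' ^ 2 := by
    rw [← map_pow, hψ, hψ']
    have h2 := Polynomial.aeval_algHom_apply (τ : Ω →ₐ[F] Ω) x B
    have h3 : (τ : Ω →ₐ[F] Ω) x = x' := hτ
    rw [h3] at h2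
    exact h2.symm
  rcases sq_eq_sq_iff_eq_or_eq_neg.mp h1 with h | h
  · exact ⟨τ, hτ, h⟩
  · obtain ⟨σ, hσ1, hσ2⟩ := sgn hx ha B hB hψ
    refine ⟨σ.trans τ, ?_, ?_⟩
    · rw [AlgEquiv.trans_apply, hσ1, hτ]
    · rw [AlgEquiv.trans_apply, hσ2, map_neg, h, neg_neg]

end field

section curve

variable {K Ω : Type} [Field K] [CharZero K] [Field Ω] [Algebra K Ω]

omit [CharZero K] in
theorem ps_sq {F : Type} [Field F] {W : Affine F} (P : W.Point) (hP : P ≠ 0) :
    ps P ^ 2 = Bf W (xc P) := by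
  rcases P with _ | ⟨x, y, h⟩
  · exact absurd rfl hP
  · have he := h.1
    rw [Affine.equation_iff] at he
    show (2 * y + W.a₁ * x + W.a₃) ^ 2 = Bf W x
    unfold Bf WeierstrassCurve.b₂ WeierstrassCurve.b₄ WeierstrassCurve.b₆
    linear_combination 4 * he

/-- A point is determined by its two coordinates. -/
theorem tp_eq [DecidableEq Ω] {W : Affine K} (τ : Ω ≃ₐ[K] Ω) {P P' : (WL Ω W).Point}
    (hP : P ≠ 0) (hP' : P' ≠ 0) (hx : τ (xc P) = xc P') (hp : τ (ps P) = ps P') :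
    tp τ P = P' := by
  have : CharZero Ω := charZero_of_injective_algebraMap (algebraMap K Ω).injective
  rcases P with _ | ⟨x, y, h⟩
  · exact absurd rfl hP
  rcases P' with _ | ⟨x', y', h'⟩
  · exact absurd rfl hP'
  have hx' : τ x = x' := hx
  have hp' : τ (2 * y + (WL Ω W).a₁ * x + (WL Ω W).a₃) = 2 * y' + (WL Ω W).a₁ * x' + (WL Ω W).a₃ := hp
  have c1 : τ (WL Ω W).a₁ = (WL Ω W).a₁ := τ.commutes W.a₁
  have c3 : τ (WL Ω W).a₃ = (WL Ω W).a₃ := τ.commutes W.a₃
  rw [map_add, map_add, map_mul, map_mul, map_ofNat, c1, c3, hx'] at hp'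
  have hy : τ y = y' := by
    have h2 : (2 : Ω) ≠ 0 := two_ne_zero
    apply mul_left_cancel₀ h2
    linear_combination hp'
  subst hx' hy
  rfl

theorem tp_add [DecidableEq Ω] {W : Affine K} (τ : Ω ≃ₐ[K] Ω) (P Q : (WL Ω W).Point) :
    tp τ (P + Q) = tp τ P + tp τ Q :=
  map_add (Affine.Point.map (W' := W) τ.toAlgHom) P Q

theorem tp_trans [DecidableEq Ω] {W : Affine K} (τ τ' : Ω ≃ₐ[K] Ω) (P : (WL Ω W).Point) :
    tp (τ.trans τ') P = tp τ' (tp τ P) := by
  rcases P with _ | ⟨x, y, h⟩ <;> rfl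

/-- A point with fixed coordinates is fixed. -/
theorem tp_fix [DecidableEq Ω] {W : Affine K} (τ : Ω ≃ₐ[K] Ω) {F : Set Ω}
    (hτ : ∀ z ∈ F, τ z = z) {P : (WL Ω W).Point} (hP : IP F P) : tp τ P = P := by
  by_cases h0 : P = 0
  · rw [h0]
    rfl
  · rcases hP with h | ⟨h1, h2⟩
    · exact absurd h h0
    · exact tp_eq τ h0 h0 (hτ _ h1) (hτ _ h2)

/-- The polynomial `4 T³ + b₂ T² + 2 b₄ T + b₆`. -/
noncomputable def Bp (W : Affine K) (F : IntermediateField K Ω) : F[X] :=
  C 4 * X ^ 3 + C (algebraMap K F W.b₂) * X ^ 2 + C (2 * algebraMap K F W.b₄) * X +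
    C (algebraMap K F W.b₆)

theorem Bp_deg (W : Affine K) (F : IntermediateField K Ω) : (Bp W F).natDegree = 3 := by
  have : CharZero F := charZero_of_injective_algebraMap (algebraMap K F).injective
  have h4 : (4 : F) ≠ 0 := by
    have h5 : ((4 : ℕ) : F) ≠ 0 := Nat.cast_ne_zero.mpr (by norm_num)
    exact_mod_cast h5
  unfold Bp
  compute_degree!

omit [CharZero K] in
theorem Bp_aeval (W : Affine K) (F : IntermediateField K Ω) (z : Ω) :
    aeval z (Bp W F) = Bf (WL Ω W) z := by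
  unfold Bp Bf
  have e2 : (WL Ω W).b₂ = algebraMap K Ω W.b₂ := WeierstrassCurve.map_b₂ _ _
  have e4 : (WL Ω W).b₄ = algebraMap K Ω W.b₄ := WeierstrassCurve.map_b₄ _ _
  have e6 : (WL Ω W).b₆ = algebraMap K Ω W.b₆ := WeierstrassCurve.map_b₆ _ _
  have f : ∀ c : K, algebraMap F Ω (algebraMap K F c) = algebraMap K Ω c := fun c => rfl
  rw [e2, e4, e6]
  simp only [map_add, map_mul, map_pow, aeval_C, aeval_X, map_ofNat, f]

variable [IsAlgClosed Ω]

/-- Square roots of elements of the closure are in the closure. -/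
theorem sq_mem (hA : ACLA) {S : Set Ω} {z : Ω} (hz : z ^ 2 ∈ acl K S) : z ∈ acl K S := by
  obtain ⟨-, -, -, -, -, -, h7⟩ := hA K Ω S ∅
  rcases h7 inferInstance z with h | h
  · exact h
  · exfalso
    apply h
    have h1 : IsAlgebraic (acl K S) (z ^ 2) :=
      isAlgebraic_algebraMap (⟨z ^ 2, hz⟩ : acl K S)
    exact IsAlgebraic.of_pow (by norm_num) h1

theorem ip_of_xc (hA : ACLA) {W : Affine K} {S : Set Ω} {P : (WL Ω W).Point}
    (h : xc P ∈ acl K S) : IP (acl K S : Set Ω) P := by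
  by_cases h0 : P = 0
  · exact Or.inl h0
  · refine Or.inr ⟨h, sq_mem hA ?_⟩
    rw [ps_sq P h0, ← Bp_aeval W (acl K S)]
    have h1 := Polynomial.aeval_algHom_apply (Algebra.ofId (acl K S) Ω) ⟨xc P, h⟩ (Bp W (acl K S))
    have h2 : (Algebra.ofId (acl K S) Ω) ⟨xc P, h⟩ = xc P := rfl
    rw [h2] at h1
    rw [h1]
    exact Subtype.property _

/-- One coordinate. -/
theorem one [DecidableEq Ω] (hA : ACLA) {W : Affine K} {S : Set Ω} {P Q : (WL Ω W).Point}
    (hQ : IP (acl K S : Set Ω) Q) (hX : xc P ∉ acl K S)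
    (hΩ : ∀ z, z ∈ acl K (insert (xc P) S)) :
    ∃ τ : Ω ≃ₐ[K] Ω, (∀ z ∈ acl K S, τ z = z) ∧ tp τ P = P + Q := by
  have hP0 : P ≠ 0 := by
    rintro rfl
    exact hX (zero_mem _)
  have hX' : xc (P + Q) ∉ acl K S := by
    intro h
    have h8 := ip_of_xc hA h
    obtain ⟨-, h9, -, -⟩ := Pool.Agent.Helper90.T3.SUBF.t K Ω W (acl K S) (P + Q) Q h8 hQ
    rw [add_sub_cancel_right] at h9
    rcases h9 with h | ⟨h, -⟩
    · exact hP0 h
    · exact hX h
  have hP0' : P + Q ≠ 0 := by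
    intro h
    rw [h] at hX'
    exact hX' (zero_mem _)
  set S' : Set Ω := insert (xc (P + Q)) S with hS'
  have hSS' : acl K S ≤ acl K S' := (hA K Ω S S').2.2.1 (Set.subset_insert _ _)
  have hsub : S ⊆ (acl K S : Set Ω) := (hA K Ω S S).2.1
  have hsub' : S' ⊆ (acl K S' : Set Ω) := (hA K Ω S' S').2.1
  have hPQ' : IP (acl K S' : Set Ω) (P + Q) :=
    ip_of_xc hA (hsub' (Set.mem_insert _ _))
  have hQ' : IP (acl K S' : Set Ω) Q := by
    rcases hQ with h | ⟨h1, h2⟩
    · exact Or.inl h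
    · exact Or.inr ⟨hSS' h1, hSS' h2⟩
  have hxP : xc P ∈ acl K S' := by
    obtain ⟨-, h9, -, -⟩ := Pool.Agent.Helper90.T3.SUBF.t K Ω W (acl K S') (P + Q) Q hPQ' hQ'
    rw [add_sub_cancel_right] at h9
    rcases h9 with h | ⟨h, -⟩
    · exact absurd h hP0
    · exact h
  have hΩ' : ∀ z, z ∈ acl K S' := by
    have h1 : acl K (insert (xc P) S) ≤ acl K ((acl K S' : Set Ω) ∪ ∅) := by
      apply (hA K Ω _ _).2.2.1
      intro y hy
      refine Or.inl ?_
      rcases hy with rfl | hy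
      · exact hxP
      · exact hSS' (hsub hy)
    have h2 : acl K ((acl K S' : Set Ω) ∪ ∅) = acl K (S' ∪ ∅) := (hA K Ω S' ∅).2.2.2.1
    rw [h2, Set.union_empty] at h1
    exact fun z => h1 (hΩ z)
  have hal : ∀ y : Ω, (∀ z, z ∈ acl K (insert y S)) →
      ∀ z : Ω, IsAlgebraic (IntermediateField.adjoin (acl K S) {y}) z := by
    intro y hy z
    refine alg1 (fun w hw => ?_) (((hA K Ω (insert y S) S).1 z).mp (hy z))
    rcases hw with rfl | hw
    · exact Or.inr rfl
    · exact Or.inl (hsub hw)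
  have htr : Transcendental (acl K S) (xc P) :=
    ((hA K Ω S S).2.2.2.2.2.2 inferInstance (xc P)).resolve_left hX
  have htr' : Transcendental (acl K S) (xc (P + Q)) :=
    ((hA K Ω S S).2.2.2.2.2.2 inferInstance (xc (P + Q))).resolve_left hX'
  obtain ⟨τ, h1, h2⟩ := pair (ψ := ps P) (ψ' := ps (P + Q)) htr htr' (hal _ hΩ) (hal _ hΩ')
    (Bp W (acl K S)) (by rw [Bp_deg]; exact ⟨1, rfl⟩) (by rw [Bp_aeval]; exact ps_sq P hP0)
    (by rw [Bp_aeval]; exact ps_sq _ hP0')
  refine ⟨τ.restrictScalars K, fun z hz => ?_, tp_eq _ hP0 hP0' h1 h2⟩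
  exact τ.commutes (⟨z, hz⟩ : acl K S)

end curve

theorem t (hA : ACLA) : Pool.Agent.Helper92.TN.TAUT := by
  intro K Ω _ _ _ _ _ _ σ _ _ W hW a L x t hind halg ht
  set S : σ → Set Ω := fun c =>
    (L : Set Ω) ∪ ((fun b => xc (x b)) '' {b | b ≠ a ∧ b ≠ c}) with hSdef
  have hLS : ∀ c z, z ∈ L → z ∈ acl K (S c) := fun c z hz =>
    (hA K Ω (S c) (S c)).2.1 (Or.inl hz)
  have hXS : ∀ b c, b ≠ a → b ≠ c → xc (x b) ∈ acl K (S c) := fun b c h1 h2 =>
    (hA K Ω (S c) (S c)).2.1 (Or.inr ⟨b, ⟨h1, h2⟩, rfl⟩)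
  have hS1 : ∀ c, c ≠ a → xc (x c) ∉ acl K (S c) := by
    intro c hc h
    refine alg3 hind (i := ⟨c, hc⟩) (S := S c) (fun w hw => ?_)
      (((hA K Ω (S c) (S c)).1 _).mp h)
    rcases hw with hw | ⟨b, ⟨hb1, hb2⟩, rfl⟩
    · exact Or.inl hw
    · exact Or.inr ⟨⟨b, hb1⟩, fun h => hb2 (congrArg Subtype.val h), rfl⟩
  have hS2 : ∀ c, c ≠ a → ∀ z, z ∈ acl K (insert (xc (x c)) (S c)) := by
    intro c hc z
    rw [(hA K Ω (insert (xc (x c)) (S c)) (S c)).1 z]
    refine alg2 (fun w hw => IntermediateField.subset_adjoin _ _ (Or.inr (Or.inl hw))) ?_ (halg z)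
    rintro w ⟨⟨b, hb⟩, rfl⟩
    apply IntermediateField.subset_adjoin
    by_cases hbc : b = c
    · subst hbc
      exact Or.inl rfl
    · exact Or.inr (Or.inr ⟨b, ⟨hb, hbc⟩, rfl⟩)
  have htS : ∀ b c, b ≠ a → IP (acl K (S c) : Set Ω) (t b) := by
    intro b c hb
    rcases ht b hb with h | ⟨h1, h2⟩
    · exact Or.inl h
    · exact Or.inr ⟨hLS c _ h1, hLS c _ h2⟩
  have hone : ∀ c, c ≠ a → ∃ τ : Ω ≃ₐ[K] Ω, (∀ z ∈ acl K (S c), τ z = z) ∧
      tp τ (x c) = x c + t c := fun c hc => one hA (htS c c hc) (hS1 c hc) (hS2 c hc)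
  have hfin : ∀ s : Finset σ, a ∉ s → ∃ τ : Ω ≃ₐ[K] Ω, (∀ z ∈ L, τ z = z) ∧
      (∀ c ∈ s, tp τ (x c) = x c + t c) ∧ ∀ c, c ≠ a → c ∉ s → tp τ (x c) = x c := by
    intro s
    induction s using Finset.induction_on with
    | empty =>
      intro _
      refine ⟨AlgEquiv.refl, fun z _ => rfl, fun c hc => absurd hc (Finset.notMem_empty c), ?_⟩
      intro c _ _
      exact tp_fix _ (F := Set.univ) (fun z _ => rfl) (Or.inr ⟨trivial, trivial⟩)
    | insert c s hc ih =>
      intro ha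
      have hca : c ≠ a := fun h => ha (h ▸ Finset.mem_insert_self c s)
      obtain ⟨τ, h1, h2, h3⟩ := ih (fun h => ha (Finset.mem_insert_of_mem h))
      obtain ⟨τ', h4, h5⟩ := hone c hca
      refine ⟨τ.trans τ', ?_, ?_, ?_⟩
      · intro z hz
        rw [AlgEquiv.trans_apply, h1 z hz, h4 z (hLS c z hz)]
      · intro b hb
        rw [tp_trans]
        rcases Finset.mem_insert.mp hb with rfl | hb'
        · rw [h3 b hca hc, h5]
        · have hbc : b ≠ c := fun h => hc (h ▸ hb')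
          have hba : b ≠ a := fun h => ha (Finset.mem_insert_of_mem (h ▸ hb'))
          rw [h2 b hb', tp_add, tp_fix τ' h4 (ip_of_xc hA (hXS b c hba hbc)),
            tp_fix τ' h4 (htS b c hba)]
      · intro b hba hb
        rw [tp_trans]
        have hbc : b ≠ c := fun h => hb (h ▸ Finset.mem_insert_self c s)
        have hbs : b ∉ s := fun h => hb (Finset.mem_insert_of_mem h)
        rw [h3 b hba hbs, tp_fix τ' h4 (ip_of_xc hA (hXS b c hba hbc))]
  obtain ⟨τ, h1, h2, -⟩ := hfin (Finset.univ.erase a) (Finset.notMem_erase a _)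
  exact ⟨τ, h1, fun c hc => h2 c (Finset.mem_erase.mpr ⟨hc, Finset.mem_univ c⟩)⟩

end Pool.Agent.Helper9.TN.TAUT
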